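import Pool.Agent.Helper50.KP.GoalsF

/-!
Project KP, packet PGI: a program without active hooks.
-/

set_option autoImplicit false

namespace Pool.Agent.Helper37.KP

open Pool.Agent.Helper50.KP

theorem hook_step (hHKI : HKI) (G : Type) [Group G] (n : ℕ) (e : ℕ × ℕ) (B : List (G × G)) (t : G)
    (h1 : e.1 < n) (h2 : e.2 < n) (h3 : e.1 ≠ e.2) (x y : G × G) (hx : B[bi n e.1]? = some x)
    (hy : B[bi n e.2]? = some y) (hxy : vl x = 1 ∨ vl y = 1) :
    ∃ B' : List (G × G),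
      run (hook (2 * (n - 1 - max e.1 e.2)) (2 * (max e.1 e.2 - min e.1 e.2) - 1)) [] t B =
        some ([], t, B') ∧ B'.length = B.length ∧
      ∀ (j : ℕ) (z : G × G), B[j]? = some z → ∃ z', B'[j]? = some z' ∧
        (vl z = 1 → vl z' = 1) ∧ (vl z ≠ 1 → z' = z) := by
  unfold bi at hx hy
  rcases lt_or_gt_of_ne h3 with h | h
  · rw [max_eq_right h.le, min_eq_left h.le]
    refine hHKI G _ _ B t y x hy ?_ hxy.symm
    rw [show 2 * (n - 1 - e.2) + (2 * (e.2 - e.1) - 1) + 1 = 2 * (n - 1 - e.1) by omega]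
    exact hx
  · rw [max_eq_left h.le, min_eq_right h.le]
    refine hHKI G _ _ B t x y hx ?_ hxy
    rw [show 2 * (n - 1 - e.1) + (2 * (e.1 - e.2) - 1) + 1 = 2 * (n - 1 - e.2) by omega]
    exact hy

theorem keep {G : Type} [Group G] {B B' : List (G × G)}
    (h : ∀ (j : ℕ) (z : G × G), B[j]? = some z → ∃ z', B'[j]? = some z' ∧
      (vl z = 1 → vl z' = 1) ∧ (vl z ≠ 1 → z' = z)) {i j : ℕ}
    (hx : ∃ x y, B[i]? = some x ∧ B[j]? = some y ∧ (vl x = 1 ∨ vl y = 1)) :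
    ∃ x y, B'[i]? = some x ∧ B'[j]? = some y ∧ (vl x = 1 ∨ vl y = 1) := by
  obtain ⟨x, y, h1, h2, h3⟩ := hx
  obtain ⟨x', hx', ax, -⟩ := h i x h1
  obtain ⟨y', hy', ay, -⟩ := h j y h2
  exact ⟨x', y', hx', hy', h3.imp ax ay⟩

/-- Packet PGI. -/
theorem gPGI (hHKI : Pool.Agent.Helper50.KP.HKI) (hRIN : Pool.Agent.Helper50.KP.RIN) :
    Pool.Agent.Helper50.KP.PGI := by
  intro G _ n ps
  induction ps with
  | nil =>
    intro B t _ _ _
    exact ⟨B, rfl, rfl, fun j z hz => ⟨z, hz, fun h => h, fun _ => rfl⟩⟩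
  | cons e ps ih =>
    intro B t h1 h2 h3
    obtain ⟨a1, a2, a3⟩ := h1 e (List.mem_cons_self ..)
    obtain ⟨x, y, hx, hy, hxy⟩ := h3 e (List.mem_cons_self ..)
    obtain ⟨B1, hr1, hl1, hk1⟩ := hook_step hHKI G n e B t a1 a2 a3 x y hx hy hxy
    obtain ⟨B2, hr2, hl2, hk2⟩ := ih B1 t (fun e' he' => h1 e' (List.mem_cons_of_mem _ he'))
      (by rw [hl1]; exact h2) (fun e' he' => keep hk1 (h3 e' (List.mem_cons_of_mem _ he')))
    refine ⟨B2, ?_, by rw [hl2, hl1], ?_⟩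
    · have hp : prog n (e :: ps) =
          hook (2 * (n - 1 - max e.1 e.2)) (2 * (max e.1 e.2 - min e.1 e.2) - 1) ++ prog n ps := by
        simp [prog]
      rw [hp, hRIN.1, hr1]
      exact hr2
    · intro j z hz
      obtain ⟨z1, b1, c1, d1⟩ := hk1 j z hz
      obtain ⟨z2, b2, c2, d2⟩ := hk2 j z1 b1
      refine ⟨z2, b2, fun h => c2 (c1 h), fun h => ?_⟩
      have h4 := d1 h
      rw [h4] at d2
      exact d2 h

end Pool.Agent.Helper37.KP
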